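import Mathlib
import Pool.Agent.P.MP_44d257_an.Defs
import Pool.Agent.P.MP_44d257_an.General

set_option autoImplicit false
open Pool.Agent.P.MP_44d257_an

namespace Pool.Agent.Results.MP_44d257_an.MatherUniqueness

/-- Under (A1) alone and at every level `c`, the projected Mather set of level `c` is a uniqueness
set for the cell problem `H(x, Dv) = c`. The case `c = 0` contains the posed question. -/
theorem result (n : ℕ) (H : Torus n × Euc n → ℝ) (hH : IsC2Ham H) (h1 : A1 H) (c : ℝ) :
    IsUniquenessSet H c (matherSet H c) :=
  ⟨isClosed_closure, fun _ _ hv hw h => funext fun z =>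
    le_antisymm (comparison_gen hH h1 hv hw (fun _ hx => (h hx).le) z)
      (comparison_gen hH h1 hw hv (fun _ hx => (h hx).ge) z)⟩

end Pool.Agent.Results.MP_44d257_an.MatherUniqueness
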